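import Pool.Agent.Mg.F56d70a.G69e862

open Pool.Agent.MP_56d70a_co

/-- For `k ≥ 3` the largest order of an `l`-connected `k`-edge-critical graph with no cycle longer
than `m` has exact order of growth `m ^ (k - 2)`, with a constant that depends on `k` only. -/
theorem Pool.Agent.Results.MP_56d70a_co.CircOrder.result (k : ℕ) (hk : 3 ≤ k) :
    ∃ C : ℕ, ∀ l : ℕ, ∃ m₀ : ℕ, ∀ m : ℕ, m₀ ≤ m →
      ∃ N : ℕ, IsGreatest (orders k l m) N ∧ m ^ (k - 2) ≤ C * N ∧ N ≤ C * m ^ (k - 2) := by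
  obtain ⟨e, rfl⟩ : ∃ e, k = e + 3 := ⟨k - 3, by omega⟩
  obtain ⟨B, hB, hcon⟩ := construction' e
  refine ⟨(2 * B) ^ (e + 1) + 6 * (20 * (e + 1) + 40) ^ (e + 1), fun l => ⟨B * (l + 2), ?_⟩⟩
  intro m hm
  have hm1 : 1 ≤ m := le_trans (by nlinarith) hm
  rw [show e + 3 - 2 = e + 1 by omega]
  have hub : ∀ n ∈ orders (e + 3) l m, n ≤ (6 * (20 * (e + 1) + 40) ^ (e + 1)) * m ^ (e + 1) := by
    rintro n ⟨V, _, G, rfl, hG, _, hc⟩
    exact card_le_of_cycles G (e + 1) m (by omega) hm1 hG hc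
  obtain ⟨V, _, G, S, hG, hl, _, h1, h2, hc⟩ := hcon l m hm
  have hmem : Fintype.card V ∈ orders (e + 3) l m := ⟨V, _, G, rfl, hG, hl, hc⟩
  have hbdd : BddAbove (orders (e + 3) l m) := ⟨_, hub⟩
  have hN := Nat.sSup_mem ⟨_, hmem⟩ hbdd
  refine ⟨sSup (orders (e + 3) l m), ⟨hN, fun _ h => le_csSup hbdd h⟩, ?_, ?_⟩
  · exact le_trans h1 (Nat.mul_le_mul (Nat.le_add_right _ _) (le_trans h2 (le_csSup hbdd hmem)))
  · exact le_trans (hub _ hN) (Nat.mul_le_mul_right _ (Nat.le_add_left _ _))
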