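import Pool.Agent.Mg.F56d70a.G69e862

open Pool.Agent.MP_56d70a_co

/-- For `k ≥ 3` the largest number of components of `G - S`, over `l`-connected `k`-edge-critical
graphs `G` and sets `S` of at most `s` vertices, has exact order of growth `s ^ (k - 2)`, with a
constant that depends on `k` only. -/
theorem Pool.Agent.Results.MP_56d70a_co.CompOrder.result (k : ℕ) (hk : 3 ≤ k) :
    ∃ C : ℕ, ∀ l : ℕ, ∃ s₀ : ℕ, ∀ s : ℕ, s₀ ≤ s →
      ∃ F : ℕ, IsGreatest (compVals k l s) F ∧ s ^ (k - 2) ≤ C * F ∧ F ≤ C * s ^ (k - 2) := by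
  obtain ⟨e, rfl⟩ : ∃ e, k = e + 3 := ⟨k - 3, by omega⟩
  obtain ⟨B, hB, hcon⟩ := construction' e
  refine ⟨(2 * B) ^ (e + 1) + (1 + (e + 1 + 1) * (e + 1 + 2)), fun l => ⟨B * (l + 2), ?_⟩⟩
  intro s hs
  have hs1 : 1 ≤ s := le_trans (by nlinarith) hs
  rw [show e + 3 - 2 = e + 1 by omega]
  have hub : ∀ w ∈ compVals (e + 3) l s, w ≤ (1 + (e + 1 + 1) * (e + 1 + 2)) * s ^ (e + 1) := by
    rintro w ⟨V, _, G, S, hG, _, hS, rfl⟩
    exact comps_le_pow G (e + 1) s hs1 hG S hS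
  obtain ⟨V, _, G, S, hG, hl, h0, h1, _, _⟩ := hcon l s hs
  have hmem : comps G S ∈ compVals (e + 3) l s := ⟨V, _, G, S, hG, hl, by omega, rfl⟩
  have hbdd : BddAbove (compVals (e + 3) l s) := ⟨_, hub⟩
  have hN := Nat.sSup_mem ⟨_, hmem⟩ hbdd
  refine ⟨sSup (compVals (e + 3) l s), ⟨hN, fun _ h => le_csSup hbdd h⟩, ?_, ?_⟩
  · exact le_trans h1 (Nat.mul_le_mul (Nat.le_add_right _ _) (le_csSup hbdd hmem))
  · exact le_trans (hub _ hN) (Nat.mul_le_mul_right _ (Nat.le_add_left _ _))
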