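import Pool.Agent.MP_56d70a_co.PanAll

open Pool.Agent.MP_56d70a_co.Pan

/-- Every Hamiltonian 3-edge-critical graph of large enough order is pancyclic. -/
theorem Pool.Agent.Results.MP_56d70a_co.Pancyclic.result :
    ∃ n₀ : ℕ, ∀ (V : Type) [Fintype V] [DecidableEq V] (G : SimpleGraph V),
      n₀ ≤ Fintype.card V →
      (∃ D : Finset V, D.card = 3 ∧ ∀ w : V, w ∈ D ∨ ∃ x ∈ D, G.Adj w x) →
      (∀ D : Finset V, D.card ≤ 2 → ¬ ∀ w : V, w ∈ D ∨ ∃ x ∈ D, G.Adj w x) →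
      (∀ u v : V, u ≠ v → ¬ G.Adj u v →
        ∃ D : Finset V, D.card ≤ 2 ∧
          ∀ w : V, w ∈ D ∨ ∃ x ∈ D, (G.Adj w x ∨ (w = u ∧ x = v) ∨ (w = v ∧ x = u))) →
      G.IsHamiltonian →
      ∀ l : ℕ, 3 ≤ l → l ≤ Fintype.card V →
        ∃ (a : V) (p : G.Walk a a), p.IsCycle ∧ p.length = l := by
  classical
  obtain ⟨n₀, h0, h⟩ := all_lengths
  refine ⟨n₀, fun V _ _ G hn _ h2 h3 hH l a b => ?_⟩
  obtain ⟨N, hN⟩ : ∃ N : V → Finset V, ∀ v w, w ∈ N v ↔ v ≠ w ∧ ¬ G.Adj v w :=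
    ⟨fun v => Finset.univ.filter fun w => v ≠ w ∧ ¬ G.Adj v w, fun v w => by simp⟩
  have e : Ad N = G.Adj := by
    ext v w
    rw [Ad, hN]
    exact ⟨fun c => by_contra fun d => c.2 ⟨c.1, d⟩, fun c => ⟨c.ne, fun d => d.2 c⟩⟩
  have hC : Crt N := fun u v hv => by
    obtain ⟨D, d1, d2⟩ := h3 u v ((hN _ _).1 hv).1 ((hN _ _).1 hv).2
    obtain ⟨w, hw⟩ := not_forall.1 (h2 D d1)
    rcases d2 w with c | ⟨x, hx, c | ⟨rfl, rfl⟩ | ⟨rfl, rfl⟩⟩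
    · exact absurd (.inl c) hw
    · exact absurd (.inr ⟨x, hx, c⟩) hw
    · refine .inr (triple G N hN h2 d1 hx hw fun t ht => ?_)
      rcases d2 t with c | ⟨y, hy, c | ⟨c, -⟩ | ⟨-, rfl⟩⟩
      exacts [.inl c, .inr ⟨y, hy, c⟩, absurd c ht, absurd (.inl hy) hw]
    · refine .inl (triple G N hN h2 d1 hx hw fun t ht => ?_)
      rcases d2 t with c | ⟨y, hy, c | ⟨-, rfl⟩ | ⟨c, -⟩⟩
      exacts [.inl c, .inr ⟨y, hy, c⟩, absurd (.inl hy) hw, absurd c ht]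
  refine (sTrans V G).2 l a (e ▸ h V N hn ⟨fun x y c => ?_, fun x c => ((hN _ _).1 c).1 rfl⟩ hC
    (e ▸ (sTrans V G).1 (h0.trans hn) hH) l a b)
  exact (hN _ _).2 ⟨((hN _ _).1 c).1.symm, fun d => ((hN _ _).1 c).2 d.symm⟩
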